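import Mathlib

/-!
# The structure of positive integers with `+`, `x * 2^y`, `≤`, `1` is not automatic

Q1 of MP_34afd1_lc asks whether the structure `(ℕ_{>0}; +, x * 2^y, ≤, 1)` is automatic.  It is
not.  In an automatic presentation let `ℓ(x)` be the length of the word representing `x`.  By
pumping, `ℓ(2^y) = ℓ(1 * 2^y) ≤ max (ℓ(1), ℓ(y)) + c`, so the numbers of the tower `1, 2, 2^2, ...`
have lengths growing at most linearly.  Since every `x` has only finitely many elements below it,
pumping the automatic relation `≤` gives `ℓ(y) ≤ ℓ(x) + c` for `y ≤ x`, so that `x ≤ K^(ℓ(x) + c)`.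
So the tower would grow at most exponentially.
-/

namespace Pool.Agent.Results.MP_34afd1_lc.NotAutomatic

/-- The convolution of the words `w 0, ..., w (k-1)`: the word of length the maximum of their
lengths whose `i`-th letter is the tuple of their `i`-th letters, where `none` is the padding
symbol. -/
def conv {k : ℕ} {α : Type} (w : Fin k → List α) : List (Fin k → Option α) :=
  (List.range (Finset.univ.sup fun j => (w j).length)).map fun i j => (w j)[i]?

/-- A `k`-ary relation `R` on the words over `α` is automatic if the set of the convolutions of the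
tuples in `R` is a regular language. -/
def AutomaticRel {k : ℕ} {α : Type} (R : Set (Fin k → List α)) : Prop :=
  Language.IsRegular ({W | ∃ w ∈ R, W = conv w} : Language (Fin k → Option α))

/-- The structure `(ℕ_{>0}; +, x * 2^y, ≤, 1)` is automatic: for some finite alphabet `α` there is a
bijection `f` from the positive integers to a regular language over `α` for which the images of the
graphs of the functions `+` and `x * 2^y`, of the relation `≤` and of (the graph of) the constant
`1` are automatic. -/
def IsAutomatic : Prop :=
  ∃ (α : Type) (_ : Fintype α) (f : ℕ+ → List α), Function.Injective f ∧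
    Language.IsRegular (Set.range f : Language α) ∧
    AutomaticRel {w : Fin 3 → List α | ∃ x y : ℕ+, w = ![f x, f y, f (x + y)]} ∧
    AutomaticRel {w : Fin 3 → List α | ∃ x y : ℕ+, w = ![f x, f y, f (x * 2 ^ (y : ℕ))]} ∧
    AutomaticRel {w : Fin 2 → List α | ∃ x y : ℕ+, x ≤ y ∧ w = ![f x, f y]} ∧
    AutomaticRel {w : Fin 1 → List α | w = ![f 1]}

section Conv

variable {k : ℕ} {α : Type}

/-- The `j`-th track of a word over the product alphabet. -/
def track (j : Fin k) (W : List (Fin k → Option α)) : List α := W.filterMap fun g => g j

lemma filterMap_range (l : List α) : ∀ n, l.length ≤ n →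
    (List.range n).filterMap (fun i => l[i]?) = l := by
  induction l with
  | nil =>
    intro n _
    simp
  | cons a l ih =>
    intro n hn
    obtain ⟨m, rfl⟩ : ∃ m, n = m + 1 := ⟨n - 1, by simp at hn; omega⟩
    rw [List.range_succ_eq_map]
    rw [List.filterMap_cons_some (b := a) (by simp)]
    rw [List.filterMap_map]
    congr 1
    rw [← ih m (by simpa using hn)]
    congr 1
    funext i
    simp [ih m (by simpa using hn)]

lemma track_conv (w : Fin k → List α) (j : Fin k) : track j (conv w) = w j := by
  unfold track conv
  rw [List.filterMap_map]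
  refine filterMap_range (w j) _ ?_
  exact Finset.le_sup (f := fun j => (w j).length) (Finset.mem_univ j)

lemma conv_length (w : Fin k → List α) :
    (conv w).length = Finset.univ.sup fun j => (w j).length := by
  simp [conv]

lemma conv_getElem (w : Fin k → List α) (i : ℕ) (hi : i < (conv w).length) :
    (conv w)[i] = fun j => (w j)[i]? := by
  simp [conv]

lemma track_drop (w : Fin k → List α) (j : Fin k) (n : ℕ) (hn : (w j).length ≤ n) :
    ∀ g ∈ (conv w).drop n, g j = none := by
  intro g hg
  obtain ⟨i, hi, rfl⟩ := List.mem_iff_getElem.1 hg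
  rw [List.getElem_drop, conv_getElem]
  exact List.getElem?_eq_none (by omega)

lemma track_append (j : Fin k) (U V : List (Fin k → Option α)) :
    track j (U ++ V) = track j U ++ track j V := by
  simp [track]

lemma track_none (j : Fin k) (V : List (Fin k → Option α)) (h : ∀ g ∈ V, g j = none) :
    track j V = [] := by
  unfold track
  rw [List.filterMap_eq_nil_iff]
  exact h

end Conv

/-- Pumping: a long final segment of an accepted word can be pumped. -/
lemma pump {β : Type} {L : Language β} (hL : L.IsRegular) :
    ∃ c : ℕ, ∀ u v : List β, u ++ v ∈ L → c ≤ v.length →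
      ∃ a b d : List β, v = a ++ b ++ d ∧ b ≠ [] ∧
        ∀ i : ℕ, u ++ (a ++ (List.replicate i b).flatten ++ d) ∈ L := by
  obtain ⟨σ, _, M, rfl⟩ := hL
  refine ⟨Fintype.card σ, fun u v huv hv => ?_⟩
  obtain ⟨q, a, b, d, h1, -, h3, h4, h5, h6⟩ := M.evalFrom_split hv (s := M.eval u) rfl
  refine ⟨a, b, d, h1, h3, fun i => ?_⟩
  have hb : M.evalFrom q (List.replicate i b).flatten = q := by
    induction i with
    | zero => simp
    | succ i ih =>
      rw [List.replicate_succ, List.flatten_cons, DFA.evalFrom_of_append, h5, ih]
  rw [DFA.mem_accepts] at huv ⊢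
  have e1 : M.eval (u ++ (a ++ (List.replicate i b).flatten ++ d)) =
      M.evalFrom (M.evalFrom (M.evalFrom (M.eval u) a) (List.replicate i b).flatten) d := by
    unfold DFA.eval
    rw [DFA.evalFrom_of_append, DFA.evalFrom_of_append, DFA.evalFrom_of_append]
  have e2 : M.eval (u ++ v) = M.evalFrom (M.eval u) v := by
    unfold DFA.eval
    rw [DFA.evalFrom_of_append]
  rw [e1, h4, hb, h6, ← e2]
  exact huv

/-- The tower of twos. -/
def tower : ℕ → ℕ+
  | 0 => 1
  | n + 1 => 1 * 2 ^ ((tower n : ℕ+) : ℕ)

lemma lt_tower (n : ℕ) : n < (tower n : ℕ) := by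
  induction n with
  | zero => simp [tower]
  | succ n ih =>
    have h1 : ((tower (n + 1) : ℕ+) : ℕ) = 2 ^ (tower n : ℕ) := by
      simp [tower]
    rw [h1]
    have h2 : (tower n : ℕ) < 2 ^ (tower n : ℕ) := Nat.lt_two_pow_self
    omega

/-- **Negative answer to Q1 of MP_34afd1_lc.**  The structure `(ℕ_{>0}; +, x * 2^y, ≤, 1)` is not
automatic. -/
theorem result : ¬ IsAutomatic := by
  classical
  rintro ⟨α, _, f, hf, -, -, hpow, hle, -⟩
  obtain ⟨c₁, hc₁⟩ := pump hpow
  obtain ⟨c₂, hc₂⟩ := pump hle
  -- lengths of the values of `y ↦ 2^y`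
  have h1 : ∀ y : ℕ+, (f (1 * 2 ^ (y : ℕ))).length ≤ (f 1).length + (f y).length + c₁ := by
    intro y
    by_contra hcon
    push Not at hcon
    set z : ℕ+ := 1 * 2 ^ (y : ℕ) with hz
    set w : Fin 3 → List α := ![f 1, f y, f z] with hw
    set m : ℕ := (f 1).length + (f y).length with hm
    have hlen : (conv w).length = (f z).length := by
      rw [conv_length]
      apply le_antisymm
      · apply Finset.sup_le
        intro j _
        fin_cases j
        · show (f 1).length ≤ _
          omega
        · show (f y).length ≤ _
          omega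
        · exact le_rfl
      · exact Finset.le_sup (f := fun j => (w j).length) (Finset.mem_univ 2)
    have hmem : (conv w).take m ++ (conv w).drop m ∈
        ({W | ∃ w ∈ {w : Fin 3 → List α | ∃ x y : ℕ+, w = ![f x, f y, f (x * 2 ^ (y : ℕ))]},
          W = conv w} : Language (Fin 3 → Option α)) := by
      rw [List.take_append_drop]
      exact ⟨w, ⟨1, y, rfl⟩, rfl⟩
    obtain ⟨a, b, d, habd, hb, hall⟩ := hc₁ _ _ hmem (by
      rw [List.length_drop, hlen]
      omega)
    obtain ⟨w', ⟨x', y', hw'⟩, hW'⟩ := hall 0
    simp only [List.replicate_zero, List.flatten_nil, List.append_nil] at hW'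
    have ht : ∀ j : Fin 3, (w j).length ≤ m → w' j = w j := by
      intro j hj
      have e1 : track j (conv w') = track j ((conv w).take m) := by
        rw [← hW', track_append, track_none j (a ++ d), List.append_nil]
        intro g hg
        refine track_drop w j m hj g ?_
        rw [habd]
        simp only [List.mem_append] at hg ⊢
        tauto
      have e2 : track j (conv w) = track j ((conv w).take m) := by
        conv_lhs => rw [← List.take_append_drop m (conv w)]
        rw [track_append, track_none j ((conv w).drop m) (track_drop w j m hj), List.append_nil]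
      rw [track_conv] at e1 e2
      rw [e1, e2]
    have hx : x' = 1 := by
      have := ht 0 (by show (f 1).length ≤ m; omega)
      rw [hw'] at this
      exact hf this
    have hy : y' = y := by
      have := ht 1 (by show (f y).length ≤ m; omega)
      rw [hw'] at this
      exact hf this
    have hww : w' = w := by
      rw [hw', hx, hy]
    rw [hww] at hW'
    have h2 := congrArg List.length hW'
    have h3 := congrArg List.length (List.take_append_drop m (conv w))
    rw [habd] at h3
    simp only [List.length_append] at h2 h3
    have h4 : 0 < b.length := List.length_pos_iff.2 hb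
    omega
  -- lengths of smaller elements
  have h2 : ∀ x y : ℕ+, x ≤ y → (f x).length ≤ (f y).length + c₂ := by
    intro x y hxy
    by_contra hcon
    push Not at hcon
    set w : Fin 2 → List α := ![f x, f y] with hw
    set m : ℕ := (f y).length with hm
    have hlen : (conv w).length = (f x).length := by
      rw [conv_length]
      apply le_antisymm
      · apply Finset.sup_le
        intro j _
        fin_cases j
        · exact le_rfl
        · show (f y).length ≤ _
          omega
      · exact Finset.le_sup (f := fun j => (w j).length) (Finset.mem_univ 0)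
    have hmem : (conv w).take m ++ (conv w).drop m ∈
        ({W | ∃ w ∈ {w : Fin 2 → List α | ∃ x y : ℕ+, x ≤ y ∧ w = ![f x, f y]},
          W = conv w} : Language (Fin 2 → Option α)) := by
      rw [List.take_append_drop]
      exact ⟨w, ⟨x, y, hxy, rfl⟩, rfl⟩
    obtain ⟨a, b, d, habd, hb, hall⟩ := hc₂ _ _ hmem (by
      rw [List.length_drop, hlen]
      omega)
    choose w' hw' hW' using hall
    choose x' y' hxy' hww' using hw'
    have hy : ∀ i, y' i = y := by
      intro i
      have e1 : track 1 (conv (w' i)) = track 1 ((conv w).take m) := by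
        rw [← hW' i, track_append, track_none 1 (a ++ (List.replicate i b).flatten ++ d),
          List.append_nil]
        intro g hg
        refine track_drop w 1 m le_rfl g ?_
        rw [habd]
        simp only [List.mem_append, List.mem_flatten, List.mem_replicate] at hg ⊢
        rcases hg with (hg | ⟨l, ⟨-, rfl⟩, hg⟩) | hg
        · exact Or.inl (Or.inl hg)
        · exact Or.inl (Or.inr hg)
        · exact Or.inr hg
      have e2 : track 1 (conv w) = track 1 ((conv w).take m) := by
        conv_lhs => rw [← List.take_append_drop m (conv w)]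
        rw [track_append, track_none 1 ((conv w).drop m) (track_drop w 1 m le_rfl),
          List.append_nil]
      rw [track_conv] at e1 e2
      have e3 : w' i 1 = w 1 := by rw [e1, e2]
      rw [hww' i] at e3
      exact hf e3
    have hinj : Function.Injective (fun i => (⟨x' i, by
        have := hxy' i
        rw [hy i] at this
        exact this⟩ : Set.Iic y)) := by
      intro i j hij
      have h3 : x' i = x' j := congrArg Subtype.val hij
      have h4 : w' i = w' j := by
        rw [hww' i, hww' j, h3, hy i, hy j]
      have h5 := congrArg List.length ((hW' i).trans (congrArg conv h4 |>.trans (hW' j).symm))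
      simp only [List.length_append, List.length_flatten, List.map_replicate,
        List.sum_replicate, smul_eq_mul] at h5
      have h6 : 0 < b.length := List.length_pos_iff.2 hb
      have h7 : i * b.length = j * b.length := by omega
      exact Nat.eq_of_mul_eq_mul_right h6 h7
    have hfin : Finite (Set.Iic y) := (Set.finite_Iic y).to_subtype
    exact not_injective_infinite_finite _ hinj
  -- counting words
  have h3 : ∀ x : ℕ+, (x : ℕ) ≤ (Fintype.card α + 1) ^ ((f x).length + c₂) := by
    intro x
    let F : Set.Iic x → (Fin ((f x).length + c₂) → Option α) := fun y i => (f y)[(i : ℕ)]?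
    have hF : Function.Injective F := by
      intro y z hyz
      apply Subtype.ext
      apply hf
      apply List.ext_getElem?
      intro i
      by_cases hi : i < (f x).length + c₂
      · exact congrFun hyz ⟨i, hi⟩
      · have h4 := h2 y x y.2
        have h5 := h2 z x z.2
        rw [List.getElem?_eq_none (by omega), List.getElem?_eq_none (by omega)]
    have h4 := Fintype.card_le_of_injective F hF
    have h5 : Fintype.card (Set.Iic x) = (x : ℕ) := by
      rw [← Nat.card_eq_fintype_card]
      have e : Nat.card (Set.Iic x) = Nat.card (Set.Icc 1 (x : ℕ)) := by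
        refine Nat.card_congr ⟨fun y => ⟨(y : ℕ+), ?_, ?_⟩, fun y => ⟨⟨y, ?_⟩, ?_⟩, ?_, ?_⟩
        · exact y.1.2
        · exact y.2
        · exact y.2.1
        · exact y.2.2
        · intro y
          rfl
        · intro y
          rfl
      rw [e]
      simp
    rw [h5] at h4
    simpa using h4
  -- the tower
  set A : ℕ := (f 1).length with hA
  have h4 : ∀ n, (f (tower n)).length ≤ A + (A + c₁) * n := by
    intro n
    induction n with
    | zero => simp [tower, hA]
    | succ n ih =>
      have h5 := h1 (tower n)
      show (f (1 * 2 ^ ((tower n : ℕ+) : ℕ))).length ≤ _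
      calc _ ≤ A + (f (tower n)).length + c₁ := h5
        _ ≤ A + (A + (A + c₁) * n) + c₁ := by omega
        _ = A + (A + c₁) * (n + 1) := by ring
  set K : ℕ := Fintype.card α + 1 with hK
  have h5 : ∀ n, 2 ^ (2 ^ n) ≤ 2 ^ (K * (A + (A + c₁) * (n + 2) + c₂)) := by
    intro n
    have e1 : ((tower (n + 2) : ℕ+) : ℕ) = 2 ^ (2 ^ (tower n : ℕ)) := by
      simp [tower]
    have e2 : 2 ^ (2 ^ n) ≤ ((tower (n + 2) : ℕ+) : ℕ) := by
      rw [e1]
      exact Nat.pow_le_pow_right (by norm_num) (Nat.pow_le_pow_right (by norm_num)
        (lt_tower n).le)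
    calc 2 ^ (2 ^ n) ≤ ((tower (n + 2) : ℕ+) : ℕ) := e2
      _ ≤ K ^ ((f (tower (n + 2))).length + c₂) := h3 _
      _ ≤ K ^ (A + (A + c₁) * (n + 2) + c₂) := by
          refine Nat.pow_le_pow_right (by omega) ?_
          have := h4 (n + 2)
          omega
      _ ≤ (2 ^ K) ^ (A + (A + c₁) * (n + 2) + c₂) := by
          exact Nat.pow_le_pow_left (Nat.lt_two_pow_self).le _
      _ = _ := by rw [← pow_mul]
  have h6 : ∀ n, 2 ^ n ≤ K * (A + (A + c₁) * (n + 2) + c₂) := fun n =>
    (Nat.pow_le_pow_iff_right (by norm_num)).1 (h5 n)
  let B : ℕ := K * (A + (A + c₁) * 2 + c₂) + 2 * (K * (A + c₁)) + 1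
  have h7 := h6 (2 * B)
  have h8 : B < 2 ^ B := Nat.lt_two_pow_self
  have h9 : 2 ^ (2 * B) = 2 ^ B * 2 ^ B := by rw [← pow_add]; ring_nf
  have h10 : B * B < 2 ^ (2 * B) := by
    rw [h9]
    exact Nat.mul_lt_mul_of_lt_of_lt h8 h8
  have h11 : K * (A + (A + c₁) * (2 * B + 2) + c₂) =
      K * (A + (A + c₁) * 2 + c₂) + 2 * (K * (A + c₁)) * B := by ring
  have h12 : K * (A + (A + c₁) * 2 + c₂) + 2 * (K * (A + c₁)) * B ≤ B * B := by
    have h13 : B * B = (K * (A + (A + c₁) * 2 + c₂)) * B + 2 * (K * (A + c₁)) * B + B := by
      simp only [B]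
      ring
    rw [h13]
    have h14 : 1 ≤ B := by simp only [B]; omega
    have h15 : K * (A + (A + c₁) * 2 + c₂) ≤ K * (A + (A + c₁) * 2 + c₂) * B :=
      Nat.le_mul_of_pos_right _ h14
    omega
  omega

end Pool.Agent.Results.MP_34afd1_lc.NotAutomatic
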